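import Mathlib

set_option autoImplicit false

/-! # Products of two linear forms on the lines `x + y = n`: definitions -/

namespace Pool.Agent.H27.LF

open Finset Filter Topology

/-- The integer coefficients of `(a₁ x + b₁ y + e₁) (a₂ x + b₂ y + e₂) + c`. -/
structure Coef where
  (a₁ b₁ e₁ a₂ b₂ e₂ c : ℤ)

variable (P : Coef)

/-- The first linear form. -/
def Coef.L₁ (x y : ℤ) : ℤ := P.a₁ * x + P.b₁ * y + P.e₁

/-- The second linear form. -/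
def Coef.L₂ (x y : ℤ) : ℤ := P.a₂ * x + P.b₂ * y + P.e₂

/-- `f(x, y) = L₁(x, y) L₂(x, y) + c`. -/
def Coef.f (x y : ℤ) : ℤ := P.L₁ x y * P.L₂ x y + P.c

/-- The coefficients of `g_n(x) = f(x, n - x) = k₂ x² + k₁ x + k₀`. -/
def Coef.k₂ : ℤ := (P.a₁ - P.b₁) * (P.a₂ - P.b₂)

@[inherit_doc Coef.k₂]
def Coef.k₁ (n : ℤ) : ℤ := (P.a₁ - P.b₁) * (P.b₂ * n + P.e₂) + (P.a₂ - P.b₂) * (P.b₁ * n + P.e₁)

@[inherit_doc Coef.k₂]
def Coef.k₀ (n : ℤ) : ℤ := (P.b₁ * n + P.e₁) * (P.b₂ * n + P.e₂) + P.c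

/-- `g_n(x) = f(x, n - x)` as a polynomial in `x`. -/
noncomputable def Coef.g (n : ℤ) : Polynomial ℤ :=
  Polynomial.C P.k₂ * Polynomial.X ^ 2 + Polynomial.C (P.k₁ n) * Polynomial.X + Polynomial.C (P.k₀ n)

/-- `g_n` is indeed `f(x, n - x)`. -/
theorem Coef.eval_g (n x : ℤ) : (P.g n).eval x = P.f x (n - x) := by
  unfold Coef.g Coef.f Coef.L₁ Coef.L₂ Coef.k₂ Coef.k₁ Coef.k₀
  simp only [Polynomial.eval_add, Polynomial.eval_mul, Polynomial.eval_C, Polynomial.eval_pow, Polynomial.eval_X]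
  ring

/-- The conditions of the problem for one `n`: `f(x, n - x)` is irreducible and has no fixed prime divisor. -/
def Coef.Admissible (n : ℤ) : Prop :=
  Irreducible (P.g n) ∧ ∀ p : ℕ, p.Prime → ∃ x : ℤ, ¬ (p : ℤ) ∣ P.f x (n - x)

/-- The products which define the constant `C(A, β, γ)` of Hardy and Littlewood for `A x² + β x + γ`, over the primes
`p ≤ z` (`jacobiSym Δ p` is the Legendre symbol). -/
noncomputable def partialC (A β γ : ℤ) (z : ℕ) : ℝ :=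
  (if Odd (A + β) then 1 / 2 else 1) *
    (∏ p ∈ (Icc 3 z).filter (fun p : ℕ => p.Prime ∧ (p : ℤ) ∣ A ∧ (p : ℤ) ∣ β), (p : ℝ) / (p - 1)) *
    ∏ p ∈ (Icc 3 z).filter (fun p : ℕ => p.Prime ∧ ¬ (p : ℤ) ∣ A),
      (1 - (jacobiSym (β ^ 2 - 4 * A * γ) p : ℝ) / (p - 1))

/-- `K = C(A, β, γ)`: the products over the primes, in increasing order, converge to `K`. -/
def IsC (A β γ : ℤ) (K : ℝ) : Prop := Tendsto (partialC A β γ) atTop (𝓝 K)

/-- The region `|a₂ - b₂| |L₁(x, y)| < |L₂(x, y)|`. -/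
def Coef.Region (x y : ℤ) : Prop := |P.a₂ - P.b₂| * |P.L₁ x y| < |P.L₂ x y|

/-- The number of the `x`, `x₁ ≤ x ≤ x₂`, with `σ f(x, n - x)` a (positive) prime. -/
noncomputable def Coef.count (σ n x₁ x₂ : ℤ) : ℕ :=
  ((Icc x₁ x₂).filter (fun x : ℤ => (σ * P.f x (n - x)).toNat.Prime)).card

/-- The sum of `1 / log (σ f(x, n - x))` over the `x`, `x₁ ≤ x ≤ x₂`, with `σ f(x, n - x) ≥ 2`. -/
noncomputable def Coef.logSum (σ n x₁ x₂ : ℤ) : ℝ :=
  ∑ x ∈ (Icc x₁ x₂).filter (fun x : ℤ => 2 ≤ σ * P.f x (n - x)), 1 / Real.log ((σ * P.f x (n - x) : ℤ) : ℝ)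

/-- The asymptotic formula for one `n`: the constant `K` of `f(x, n - x)` exists and is at least `κ`, and on every
interval `x₁ ≤ x ≤ x₂` with `1 ≤ x₁`, `x₂ ≤ n - 1` and end points in the region the number of prime values, and of
prime values of `-f`, is `2 K ∑ 1 / log |f(x, n - x)|` up to `δ n / log n`. -/
def Coef.Good (κ δ : ℝ) (n : ℤ) : Prop :=
  ∃ K : ℝ, IsC P.k₂ (P.k₁ n) (P.k₀ n) K ∧ κ ≤ K ∧ ∀ σ : ℤ, (σ = 1 ∨ σ = -1) → ∀ x₁ x₂ : ℤ, 1 ≤ x₁ → x₂ < n →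
    P.Region x₁ (n - x₁) → P.Region x₂ (n - x₂) →
    |(P.count σ n x₁ x₂ : ℝ) - 2 * K * P.logSum σ n x₁ x₂| ≤ δ * ((n : ℝ) / Real.log n)

/-- The number of the representations of `n` as `x + y`, `x, y ≥ 1`, with `|f(x, y)|` prime. -/
def Coef.rep (n : ℕ) : ℕ :=
  ((Icc 1 n ×ˢ Icc 1 n).filter (fun q : ℕ × ℕ => q.1 + q.2 = n ∧ (P.f q.1 q.2).natAbs.Prime)).card

open Classical in
/-- The number of the `n ≤ N` which satisfy the conditions of the problem and for which the asymptotic formula fails,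
or for which there are fewer than `κ n / log n` representations although one of the linear forms dominates the other at
a vertex. -/
noncomputable def Coef.exceptions (κ δ : ℝ) (N : ℕ) : ℕ :=
  ((Icc 1 N).filter (fun n : ℕ => P.Admissible n ∧ ¬ (P.Good κ δ n ∧
    ((|P.a₂ - P.b₂| * |P.a₁| < |P.a₂| ∨ |P.a₂ - P.b₂| * |P.b₁| < |P.b₂| ∨ |P.a₂ - P.b₂| = 1) →
      κ * ((n : ℝ) / Real.log n) ≤ P.rep n)))).card

end Pool.Agent.H27.LF
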