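import Pool.Agent.H27.LF.Tr

set_option autoImplicit false

/-! # The exceptional set of the asymptotic formula -/

namespace Pool.Agent.H27.LF

open Finset Filter Topology
open Pool.Agent.N728.QU (Vg cntg)

open Classical in
theorem exc_good {P : Coef} {α a τ s : ℤ} (D : Dat P α a τ s) (hA : a = |P.a₂ - P.b₂|) :
    ∀ ε : ℝ, 0 < ε → ∃ κ : ℝ, 0 < κ ∧ ∀ δ : ℝ, 0 < δ → ∃ N₀ : ℕ, ∀ N : ℕ, N₀ ≤ N →
      (((Icc 1 N).filter (fun n : ℕ => P.Admissible n ∧ ¬ P.Good κ δ n)).card : ℝ) ≤ ε * N := by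
  intro ε hε
  have ha := D.ha
  have ha' : ((a.natAbs : ℕ) : ℤ) = a := by omega
  obtain ⟨q, hq⟩ : ∃ q : ℕ, q = 2 * a.natAbs := ⟨_, rfl⟩
  have hq1 : 1 ≤ q := by omega
  have hqa : (q : ℤ) = 2 * a := by rw [hq]; omega
  obtain ⟨d, hd⟩ : ∃ d, d = s * τ * (P.a₁ * P.b₂ - P.a₂ * P.b₁) := ⟨_, rfl⟩
  obtain ⟨E, hE⟩ : ∃ E, E = s * τ * (α * P.e₂ - (P.a₂ - P.b₂) * P.e₁) := ⟨_, rfl⟩
  have hd1 : 1 ≤ d := by rw [hd]; exact D.hD
  have hWn : ∀ n : ℤ, WW P α τ s n = d * n + E := by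
    intro n
    rw [WW_eq D, hd, hE]
  obtain ⟨s1, hs1⟩ : ∃ s1 : ℕ, (s1 : ℤ) = d + |E| :=
    ⟨(d + |E|).toNat, Int.toNat_of_nonneg (by have := abs_nonneg E; omega)⟩
  have hE0 : 0 ≤ |E| := abs_nonneg E
  have hs11 : 1 ≤ s1 := by omega
  have hs1r : (1 : ℝ) ≤ s1 := by exact_mod_cast hs11
  have hqr : (1 : ℝ) ≤ q := by exact_mod_cast hq1
  have hε' : 0 < ε / (4 * q * s1) := by positivity
  choose κf hκf hf using fun r : ℕ => t_FINTT a (-(r : ℤ)) τ P.c ha D.hc D.hτ
    (ε / (4 * q * s1)) hε'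
  have hSg : 0 < ∑ r ∈ range q, (κf r)⁻¹ + 1 := by
    have : 0 ≤ ∑ r ∈ range q, (κf r)⁻¹ := Finset.sum_nonneg fun r _ => by
      have := hκf r
      positivity
    linarith
  refine ⟨(∑ r ∈ range q, (κf r)⁻¹ + 1)⁻¹, inv_pos.2 hSg, fun δ hδ => ?_⟩
  have hκr : ∀ r ∈ range q, (∑ r ∈ range q, (κf r)⁻¹ + 1)⁻¹ ≤ κf r := by
    intro r hr
    have h1 : (κf r)⁻¹ ≤ ∑ r ∈ range q, (κf r)⁻¹ := Finset.single_le_sum (f := fun r => (κf r)⁻¹)
      (fun i _ => by have := hκf i; positivity) hr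
    exact inv_le_of_inv_le₀ (hκf r) (by linarith)
  obtain ⟨κ, hκ⟩ : ∃ κ, κ = (∑ r ∈ range q, (κf r)⁻¹ + 1)⁻¹ := ⟨_, rfl⟩
  rw [← hκ] at hκr ⊢
  obtain ⟨K, hK⟩ : ∃ K : ℕ, K = 2 + P.b₁.natAbs + P.e₁.natAbs := ⟨_, rfl⟩
  have hδ' : 0 < δ * (ε / 4) / (2 * s1) := by positivity
  choose H0f hH0f using fun r : ℕ => hf r (δ * (ε / 4) / (2 * s1)) K hδ'
  obtain ⟨N1, hN1⟩ := exists_nat_ge (4 * ((|E| : ℤ) : ℝ) / ε)
  obtain ⟨N2, hN2⟩ := exists_nat_ge (8 / ε)
  refine ⟨(∑ r ∈ range q, H0f r) + N1 + N2 + 2, fun N hN => ?_⟩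
  have hNH : ∀ r ∈ range q, H0f r ≤ N := by
    intro r hr
    have h1 : H0f r ≤ ∑ r ∈ range q, H0f r :=
      Finset.single_le_sum (f := fun r => H0f r) (fun i _ => Nat.zero_le _) hr
    omega
  have hN2' : 2 ≤ N := by omega
  have hNr : (2 : ℝ) ≤ N := by exact_mod_cast hN2'
  have hEN : ((|E| : ℤ) : ℝ) ≤ ε / 4 * N := by
    have h1 : 4 * ((|E| : ℤ) : ℝ) / ε ≤ N := hN1.trans (by exact_mod_cast (by omega : N1 ≤ N))
    rw [div_le_iff₀ hε] at h1
    linarith
  have hηN : 2 ≤ ε / 4 * N := by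
    have h1 : 8 / ε ≤ N := hN2.trans (by exact_mod_cast (by omega : N2 ≤ N))
    rw [div_le_iff₀ hε] at h1
    linarith
  obtain ⟨H, hH⟩ : ∃ H : ℕ, H = s1 * N := ⟨_, rfl⟩
  have hNH' : N ≤ H := by
    rw [hH]
    exact Nat.le_mul_of_pos_left _ hs11
  have hHr : (H : ℝ) = s1 * N := by rw [hH]; push_cast; ring
  -- the exceptional set
  obtain ⟨S, hS⟩ : ∃ S : Finset ℕ, S = (Icc 1 N).filter
    (fun n : ℕ => P.Admissible n ∧ ¬ P.Good κ δ n) := ⟨_, rfl⟩
  rw [← hS]
  obtain ⟨T, hT⟩ : ∃ T : ℕ → Finset ℕ, T = fun r : ℕ => S.filter (fun n : ℕ => |E| < (n : ℤ) ∧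
    ε / 4 * N < n ∧ ∃ h : ℕ, 2 * a * (h : ℤ) - r = WW P α τ s n) := ⟨_, rfl⟩
  have hcov : S ⊆ Icc 1 E.natAbs ∪ (Icc 1 ⌊ε / 4 * (N : ℝ)⌋₊ ∪ (range q).biUnion T) := by
    intro n hn
    have hn' := hn
    rw [hS, mem_filter, mem_Icc] at hn'
    rw [mem_union, mem_union, mem_Icc, mem_Icc]
    by_cases h1 : n ≤ E.natAbs
    · exact Or.inl ⟨hn'.1.1, h1⟩
    right
    by_cases h2 : (n : ℝ) ≤ ε / 4 * N
    · exact Or.inl ⟨hn'.1.1, Nat.le_floor h2⟩
    right
    push Not at h1 h2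
    have h1' : |E| < (n : ℤ) := by
      rw [Int.abs_eq_natAbs]
      exact_mod_cast h1
    have hW : 0 < WW P α τ s n := by
      rw [hWn]
      have h3 := neg_abs_le E
      have h4 : (n : ℤ) ≤ d * n := by nlinarith
      omega
    rw [mem_biUnion]
    obtain ⟨w, hw⟩ : ∃ w, w = WW P α τ s n := ⟨_, rfl⟩
    rw [← hw] at hW
    have h5 : 0 ≤ (-w) % (2 * a) := Int.emod_nonneg _ (by omega)
    have h6 : (-w) % (2 * a) < 2 * a := Int.emod_lt_of_pos _ (by omega)
    have h7 : 2 * a * ((-w) / (2 * a)) + (-w) % (2 * a) = -w := Int.mul_ediv_add_emod _ _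
    have h8 : 0 ≤ -((-w) / (2 * a)) := by
      by_contra hcon
      have h9 : 1 ≤ (-w) / (2 * a) := by omega
      have h10 : 2 * a * 1 ≤ 2 * a * ((-w) / (2 * a)) :=
        mul_le_mul_of_nonneg_left h9 (by omega)
      omega
    refine ⟨((-w) % (2 * a)).toNat, ?_, ?_⟩
    · rw [mem_range]
      omega
    · rw [hT]
      simp only
      rw [mem_filter]
      refine ⟨hn, h1', h2, (-((-w) / (2 * a))).toNat, ?_⟩
      rw [← hw, Int.toNat_of_nonneg h8, Int.toNat_of_nonneg h5]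
      linarith
  -- one residue
  have hTr : ∀ r ∈ range q, ((T r).card : ℝ) ≤ ε / (4 * q * s1) * H := by
    intro r hr
    refine le_trans ?_ (hH0f r H ((hNH r hr).trans hNH'))
    refine Nat.cast_le.2 ?_
    have hrq : (r : ℤ) < 2 * a := by
      rw [mem_range] at hr
      omega
    have hkey : ∀ n ∈ T r, ∃ h : ℕ, 2 * a * (h : ℤ) - r = WW P α τ s n ∧ 1 ≤ h ∧ h ≤ H ∧
        n ≤ N ∧ 1 ≤ n ∧ P.Admissible n ∧ ¬ P.Good κ δ n ∧ 0 < WW P α τ s n ∧ ε / 4 * N < n := by
      intro n hn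
      rw [hT] at hn
      simp only at hn
      rw [mem_filter] at hn
      obtain ⟨hnS, h1, h2, h, h3⟩ := hn
      rw [hS, mem_filter, mem_Icc] at hnS
      have hW : 0 < WW P α τ s n := by
        rw [hWn]
        have h3 := neg_abs_le E
        have h4 : (n : ℤ) ≤ d * n := by nlinarith
        omega
      have hWH : WW P α τ s n ≤ H := by
        rw [hWn, hH]
        push_cast
        rw [hs1]
        have h4 := le_abs_self E
        have h5 : (n : ℤ) ≤ N := by exact_mod_cast hnS.1.2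
        have h6 : (1 : ℤ) ≤ N := by omega
        nlinarith
      refine ⟨h, h3, ?_, ?_, hnS.1.2, hnS.1.1, hnS.2.1, hnS.2.2, hW, h2⟩
      · by_contra hcon
        have h0 : h = 0 := by omega
        rw [h0] at h3
        push_cast at h3
        omega
      · by_contra hcon
        push Not at hcon
        have h0 : (H : ℤ) + 1 ≤ h := by exact_mod_cast hcon
        have h7 : 2 * a * ((H : ℤ) + 1) ≤ 2 * a * h := mul_le_mul_of_nonneg_left h0 (by omega)
        have h8 : (H : ℤ) ≤ a * H := by nlinarith [Int.natCast_nonneg H]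
        have h9 : 2 * a * ((H : ℤ) + 1) = 2 * (a * H) + 2 * a := by ring
        rw [h9] at h7
        have h10 := Int.natCast_nonneg H
        linarith
    refine Finset.card_le_card_of_injOn
      (fun n : ℕ => ((WW P α τ s n + r) / (2 * a)).toNat) ?_ ?_
    · intro n hn
      rw [Finset.mem_coe] at hn
      obtain ⟨h, k1, k2, k3, k4, k5, k6, k7, k8, k9⟩ := hkey n hn
      have e1 : (WW P α τ s n + r) / (2 * a) = h := by
        rw [← k1, sub_add_cancel]
        exact Int.mul_ediv_cancel_left _ (by omega)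
      simp only [e1, Int.toNat_natCast]
      rw [Finset.mem_coe, mem_filter, mem_Icc]
      refine ⟨⟨k2, k3⟩, ?_, ?_⟩
      · rw [← sub_eq_add_neg, k1]
        exact adm' D k6
      · rintro ⟨C, c1, c2, c3⟩
        apply k7
        have hnr : (2 : ℝ) ≤ n := hηN.trans k9.le
        have hlogn : 0 < Real.log n := Real.log_pos (by linarith)
        have hnN : (n : ℝ) ≤ N := by exact_mod_cast k4
        have hlogN : Real.log n ≤ Real.log N := Real.log_le_log (by linarith) hnN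
        have hlogH : Real.log N ≤ Real.log H :=
          Real.log_le_log (by linarith) (by exact_mod_cast hNH')
        refine good_of (T := K * H) D hA (by omega) k8 k1 (Int.natCast_nonneg r) ?_
          (X := δ * (ε / 4) / (2 * s1) * (H / Real.log H)) ?_ ?_ ⟨C, c1, (hκr r hr).trans c2, c3⟩
        · rw [hK]
          push_cast
          have h1 : (h : ℤ) ≤ H := by exact_mod_cast k3
          have h2 : (n : ℤ) ≤ H := by exact_mod_cast k4.trans hNH'
          have h3 : |P.b₁| * (n : ℤ) ≤ |P.b₁| * H := mul_le_mul_of_nonneg_left h2 (abs_nonneg _)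
          have h4 : |P.e₁| * 1 ≤ |P.e₁| * H :=
            mul_le_mul_of_nonneg_left (by omega) (abs_nonneg _)
          nlinarith
        · push_cast
          calc 2 * (δ * (ε / 4) / (2 * s1) * ((H : ℝ) / Real.log H)) ≤
              2 * (δ * (ε / 4) / (2 * s1) * ((H : ℝ) / Real.log N)) := by
                refine mul_le_mul_of_nonneg_left (mul_le_mul_of_nonneg_left ?_ hδ'.le)
                  (by norm_num)
                exact div_le_div_of_nonneg_left (Nat.cast_nonneg _) (by linarith) hlogH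
            _ = δ * ((ε / 4 * N) / Real.log N) := by
                rw [hHr]
                have : (s1 : ℝ) ≠ 0 := by positivity
                field_simp
            _ ≤ δ * ((n : ℝ) / Real.log n) := by
                refine mul_le_mul_of_nonneg_left ?_ hδ.le
                exact div_le_div₀ (by linarith) k9.le hlogn hlogN
        · have hlogH0 : 0 ≤ Real.log H := by linarith
          positivity
    · intro n hn n' hn' hnn
      rw [Finset.mem_coe] at hn hn'
      obtain ⟨h, k1, -⟩ := hkey n hn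
      obtain ⟨h', k1', -⟩ := hkey n' hn'
      have e1 : (WW P α τ s n + r) / (2 * a) = h := by
        rw [← k1, sub_add_cancel]
        exact Int.mul_ediv_cancel_left _ (by omega)
      have e1' : (WW P α τ s n' + r) / (2 * a) = h' := by
        rw [← k1', sub_add_cancel]
        exact Int.mul_ediv_cancel_left _ (by omega)
      simp only [e1, e1', Int.toNat_natCast] at hnn
      rw [hnn, k1', hWn, hWn] at k1
      have h1 : d * (n' : ℤ) = d * n := by linarith
      have h2 : (n' : ℤ) = n := mul_left_cancel₀ (by omega) h1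
      exact_mod_cast h2.symm
  have hcard : S.card ≤ E.natAbs + (⌊ε / 4 * (N : ℝ)⌋₊ + ∑ r ∈ range q, (T r).card) := by
    refine (Finset.card_le_card hcov).trans ((Finset.card_union_le _ _).trans ?_)
    rw [Nat.card_Icc, Nat.add_sub_cancel]
    refine Nat.add_le_add_left ((Finset.card_union_le _ _).trans ?_) _
    rw [Nat.card_Icc, Nat.add_sub_cancel]
    exact Nat.add_le_add_left Finset.card_biUnion_le _
  have hcardr : (S.card : ℝ) ≤ E.natAbs + (⌊ε / 4 * (N : ℝ)⌋₊ + ∑ r ∈ range q, ((T r).card : ℝ)) := by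
    exact_mod_cast hcard
  have hb1 : ((E.natAbs : ℕ) : ℝ) ≤ ε / 4 * N := by
    have : ((E.natAbs : ℕ) : ℝ) = ((|E| : ℤ) : ℝ) := Nat.cast_natAbs E
    rw [this]
    exact hEN
  have hb2 : (⌊ε / 4 * (N : ℝ)⌋₊ : ℝ) ≤ ε / 4 * N := Nat.floor_le (by positivity)
  have hb3 : ∑ r ∈ range q, ((T r).card : ℝ) ≤ ε / 4 * N := by
    calc ∑ r ∈ range q, ((T r).card : ℝ) ≤ ∑ _r ∈ range q, ε / (4 * q * s1) * H :=
          Finset.sum_le_sum hTr
      _ = ε / 4 * N := by
          rw [Finset.sum_const, card_range, nsmul_eq_mul, hHr]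
          have h1 : (s1 : ℝ) ≠ 0 := by positivity
          have h2 : (q : ℝ) ≠ 0 := by positivity
          field_simp
  have h0 : 0 ≤ ε * N := by positivity
  linarith

end Pool.Agent.H27.LF
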