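import Pool.Agent.H27.LF.Many

set_option autoImplicit false

/-! # Assembly -/

namespace Pool.Agent.H27.LF

open Finset Filter Topology

open Classical in
theorem many_good {P : Coef} {α a τ s : ℤ} (D : Dat P α a τ s) (hA : a = |P.a₂ - P.b₂|)
    (hV : a * |P.a₁| < |P.a₂| ∨ a * |P.b₁| < |P.b₂|) :
    ∀ ε : ℝ, 0 < ε → ∃ κ : ℝ, 0 < κ ∧ ∀ δ : ℝ, 0 < δ → ∃ N₀ : ℕ, ∀ N : ℕ, N₀ ≤ N →
      (((Icc 1 N).filter (fun n : ℕ => P.Admissible n ∧ ¬ (P.Good κ δ n ∧
        κ * ((n : ℝ) / Real.log n) ≤ P.rep n))).card : ℝ) ≤ ε * N := by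
  intro ε hε
  obtain ⟨κ, hκ, h⟩ := exc_good D hA (ε / 2) (by positivity)
  obtain ⟨N1, hN1⟩ := many_of D hA hV
  have ha := D.ha
  have har : (1 : ℝ) ≤ a := by exact_mod_cast ha
  refine ⟨κ / (48 * a), by positivity, fun δ hδ => ?_⟩
  obtain ⟨δ', hδ'⟩ : ∃ δ', δ' = min δ (κ / (96 * a)) := ⟨_, rfl⟩
  have hδ'0 : 0 < δ' := by rw [hδ']; positivity
  obtain ⟨N2, hN2⟩ := h δ' hδ'0
  obtain ⟨N3, hN3⟩ := exists_nat_ge (2 * (N1 : ℝ) / ε)
  refine ⟨N2 + N3, fun N hN => ?_⟩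
  have hf := hN2 N (by omega)
  obtain ⟨S, hS⟩ : ∃ S : Finset ℕ, S = (Icc 1 N).filter
    (fun n : ℕ => P.Admissible n ∧ ¬ P.Good κ δ' n) := ⟨_, rfl⟩
  rw [← hS] at hf
  have hsub : (Icc 1 N).filter (fun n : ℕ => P.Admissible n ∧ ¬ (P.Good (κ / (48 * a)) δ n ∧
        κ / (48 * a) * ((n : ℝ) / Real.log n) ≤ P.rep n)) ⊆ S ∪ Icc 1 N1 := by
    intro n hn
    rw [mem_filter] at hn
    obtain ⟨hnI, hadm, hno⟩ := hn
    have hn1 := (mem_Icc.1 hnI).1
    rw [mem_union, mem_Icc]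
    by_contra hcon
    push Not at hcon
    obtain ⟨c1, c2⟩ := hcon
    have c3 := c2 hn1
    rw [hS, mem_filter, not_and, not_and, not_not] at c1
    have c4 := c1 hnI hadm
    apply hno
    have hκ48 : κ / (48 * a) ≤ κ := div_le_self hκ.le (by linarith)
    have hnr : (1 : ℝ) ≤ n := by exact_mod_cast hn1
    refine ⟨Good.mono (by exact_mod_cast hn1) c4 hκ48 (by rw [hδ']; exact min_le_left _ _),
      le_trans ?_ (hN1 n c3.le κ δ' hκ.le c4)⟩
    have hlog : 0 ≤ Real.log n := Real.log_nonneg hnr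
    refine mul_le_mul_of_nonneg_right ?_ (by positivity)
    have h5 : δ' ≤ κ / (96 * a) := by rw [hδ']; exact min_le_right _ _
    have e1 : κ / (24 * a) = κ / (48 * a) + 2 * (κ / (96 * a)) := by
      field_simp
      norm_num
    linarith
  have h1 := (Finset.card_le_card hsub).trans (Finset.card_union_le _ _)
  rw [Nat.card_Icc, Nat.add_sub_cancel] at h1
  have h2 : ((((Icc 1 N).filter (fun n : ℕ => P.Admissible n ∧ ¬ (P.Good (κ / (48 * a)) δ n ∧
        κ / (48 * a) * ((n : ℝ) / Real.log n) ≤ P.rep n))).card : ℕ) : ℝ) ≤ S.card + N1 := by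
    exact_mod_cast h1
  have h3 : (N1 : ℝ) ≤ ε / 2 * N := by
    have h4 : 2 * (N1 : ℝ) / ε ≤ N := hN3.trans (by exact_mod_cast (by omega : N3 ≤ N))
    rw [div_le_iff₀ hε] at h4
    linarith
  linarith

/-- the exchange of the two forms -/
def swap (P : Coef) : Coef := ⟨P.a₂, P.b₂, P.e₂, P.a₁, P.b₁, P.e₁, P.c⟩

theorem swap_f (P : Coef) (x y : ℤ) : (swap P).f x y = P.f x y := by
  unfold swap Coef.f Coef.L₁ Coef.L₂
  ring

theorem swap_adm (P : Coef) (n : ℤ) (h : P.Admissible n) : (swap P).Admissible n := by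
  have e : (swap P).g n = P.g n := by
    have e1 : (swap P).k₂ = P.k₂ := by unfold swap Coef.k₂; ring
    have e2 : (swap P).k₁ n = P.k₁ n := by unfold swap Coef.k₁; ring
    have e3 : (swap P).k₀ n = P.k₀ n := by unfold swap Coef.k₀; ring
    unfold Coef.g
    rw [e1, e2, e3]
  refine ⟨by rw [e]; exact h.1, fun p hp => ?_⟩
  obtain ⟨x, hx⟩ := h.2 p hp
  exact ⟨x, by rw [swap_f]; exact hx⟩

theorem swap_rep (P : Coef) (n : ℕ) : (swap P).rep n = P.rep n := by
  unfold Coef.rep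
  simp only [swap_f]

open Classical in
theorem main (P : Coef) (h1 : |P.a₁ - P.b₁| = 1) (h2 : P.a₂ ≠ P.b₂)
    (hD : P.a₁ * P.b₂ ≠ P.a₂ * P.b₁) (hc : P.c ≠ 0) :
    ∀ ε : ℝ, 0 < ε → ∃ κ : ℝ, 0 < κ ∧ ∀ δ : ℝ, 0 < δ → ∃ N₀ : ℕ, ∀ N : ℕ, N₀ ≤ N →
      (P.exceptions κ δ N : ℝ) ≤ ε * N := by
  intro ε hε
  obtain ⟨α, τ, s, D⟩ := exists_dat P h1 h2 hD hc
  by_cases hV : |P.a₂ - P.b₂| * |P.a₁| < |P.a₂| ∨ |P.a₂ - P.b₂| * |P.b₁| < |P.b₂|
  · obtain ⟨κ, hκ, h⟩ := many_good D rfl hV ε hε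
    refine ⟨κ, hκ, fun δ hδ => ?_⟩
    obtain ⟨N0, hN0⟩ := h δ hδ
    refine ⟨N0, fun N hN => le_trans ?_ (hN0 N hN)⟩
    unfold Coef.exceptions
    refine Nat.cast_le.2 (Finset.card_le_card ?_)
    intro n hn
    rw [mem_filter] at hn ⊢
    exact ⟨hn.1, hn.2.1, fun h => hn.2.2 ⟨h.1, fun _ => h.2⟩⟩
  by_cases hA1 : |P.a₂ - P.b₂| = 1
  · obtain ⟨α', τ', s', D'⟩ := exists_dat (swap P) hA1 (by
      intro h
      have h3 : P.a₁ = P.b₁ := h
      rw [h3] at h1
      simp at h1) (by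
      intro h
      apply hD
      have h3 : P.a₂ * P.b₁ = P.a₁ * P.b₂ := h
      exact h3.symm) hc
    have hV' : |(swap P).a₂ - (swap P).b₂| * |(swap P).a₁| < |(swap P).a₂| ∨
        |(swap P).a₂ - (swap P).b₂| * |(swap P).b₁| < |(swap P).b₂| := by
      have g1 : (swap P).a₂ = P.a₁ := rfl
      have g2 : (swap P).b₂ = P.b₁ := rfl
      have g3 : (swap P).a₁ = P.a₂ := rfl
      have g4 : (swap P).b₁ = P.b₂ := rfl
      rw [g1, g2, g3, g4, h1, one_mul, one_mul]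
      rw [hA1, one_mul, one_mul] at hV
      by_contra hcon
      push Not at hV hcon
      have k1 : |P.a₁| = |P.a₂| := le_antisymm hcon.1 hV.1
      have k2 : |P.b₁| = |P.b₂| := le_antisymm hcon.2 hV.2
      rcases abs_eq_abs.1 k1 with e1 | e1 <;> rcases abs_eq_abs.1 k2 with e2 | e2
      · exact hD (by rw [e1, e2])
      · rw [e1, e2] at h1 hD
        rcases (abs_eq (by norm_num : (0 : ℤ) ≤ 1)).1 h1 with q1 | q1 <;>
          rcases (abs_eq (by norm_num : (0 : ℤ) ≤ 1)).1 hA1 with q2 | q2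
        · have : P.b₂ = 0 := by omega
          rw [this] at hD
          simp at hD
        · have : P.a₂ = 0 := by omega
          rw [this] at hD
          simp at hD
        · have : P.a₂ = 0 := by omega
          rw [this] at hD
          simp at hD
        · have : P.b₂ = 0 := by omega
          rw [this] at hD
          simp at hD
      · rw [e1, e2] at h1 hD
        rcases (abs_eq (by norm_num : (0 : ℤ) ≤ 1)).1 h1 with q1 | q1 <;>
          rcases (abs_eq (by norm_num : (0 : ℤ) ≤ 1)).1 hA1 with q2 | q2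
        · have : P.a₂ = 0 := by omega
          rw [this] at hD
          simp at hD
        · have : P.b₂ = 0 := by omega
          rw [this] at hD
          simp at hD
        · have : P.b₂ = 0 := by omega
          rw [this] at hD
          simp at hD
        · have : P.a₂ = 0 := by omega
          rw [this] at hD
          simp at hD
      · exact hD (by rw [e1, e2]; ring)
    obtain ⟨κ1, hκ1, f1⟩ := exc_good D rfl (ε / 2) (by positivity)
    obtain ⟨κ2, hκ2, f2⟩ := many_good D' rfl hV' (ε / 2) (by positivity)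
    refine ⟨min κ1 κ2, by positivity, fun δ hδ => ?_⟩
    obtain ⟨N1, f1⟩ := f1 δ hδ
    obtain ⟨N2, f2⟩ := f2 δ hδ
    refine ⟨N1 + N2, fun N hN => ?_⟩
    have g1 := f1 N (by omega)
    have g2 := f2 N (by omega)
    obtain ⟨S1, hS1⟩ : ∃ S : Finset ℕ, S = (Icc 1 N).filter
      (fun n : ℕ => P.Admissible n ∧ ¬ P.Good κ1 δ n) := ⟨_, rfl⟩
    obtain ⟨S2, hS2⟩ : ∃ S : Finset ℕ, S = (Icc 1 N).filter
      (fun n : ℕ => (swap P).Admissible n ∧ ¬ ((swap P).Good κ2 δ n ∧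
        κ2 * ((n : ℝ) / Real.log n) ≤ (swap P).rep n)) := ⟨_, rfl⟩
    rw [← hS1] at g1
    rw [← hS2] at g2
    have hsub : (Icc 1 N).filter (fun n : ℕ => P.Admissible n ∧ ¬ (P.Good (min κ1 κ2) δ n ∧
        ((|P.a₂ - P.b₂| * |P.a₁| < |P.a₂| ∨ |P.a₂ - P.b₂| * |P.b₁| < |P.b₂| ∨
        |P.a₂ - P.b₂| = 1) → min κ1 κ2 * ((n : ℝ) / Real.log n) ≤ P.rep n))) ⊆ S1 ∪ S2 := by
      intro n hn
      rw [mem_filter] at hn
      obtain ⟨hnI, hadm, hno⟩ := hn
      have hn1 := (mem_Icc.1 hnI).1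
      have hnr : (1 : ℝ) ≤ n := by exact_mod_cast hn1
      have hlog : 0 ≤ Real.log n := Real.log_nonneg hnr
      rw [mem_union]
      by_contra hcon
      push Not at hcon
      obtain ⟨c1, c2⟩ := hcon
      rw [hS1, mem_filter, not_and, not_and, not_not] at c1
      rw [hS2, mem_filter, not_and, not_and, not_not] at c2
      apply hno
      refine ⟨Good.mono (by exact_mod_cast hn1) (c1 hnI hadm) (min_le_left _ _) le_rfl,
        fun _ => ?_⟩
      have := (c2 hnI (swap_adm P n hadm)).2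
      rw [swap_rep] at this
      refine le_trans ?_ this
      exact mul_le_mul_of_nonneg_right (min_le_right _ _) (by positivity)
    have h5 : P.exceptions (min κ1 κ2) δ N ≤ S1.card + S2.card := by
      unfold Coef.exceptions
      exact (Finset.card_le_card hsub).trans (Finset.card_union_le _ _)
    have h6 : (P.exceptions (min κ1 κ2) δ N : ℝ) ≤ S1.card + S2.card := by exact_mod_cast h5
    linarith
  · obtain ⟨κ, hκ, h⟩ := exc_good D rfl ε hε
    refine ⟨κ, hκ, fun δ hδ => ?_⟩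
    obtain ⟨N0, hN0⟩ := h δ hδ
    refine ⟨N0, fun N hN => le_trans ?_ (hN0 N hN)⟩
    unfold Coef.exceptions
    refine Nat.cast_le.2 (Finset.card_le_card ?_)
    intro n hn
    rw [mem_filter] at hn ⊢
    refine ⟨hn.1, hn.2.1, fun h => hn.2.2 ⟨h, fun h' => ?_⟩⟩
    exfalso
    tauto

end Pool.Agent.H27.LF
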