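import Pool.Agent.H27.LF.Exc

set_option autoImplicit false

/-! # The number of the representations -/

namespace Pool.Agent.H27.LF

open Finset Filter Topology

theorem Good.mono {P : Coef} {κ κ' δ δ' : ℝ} {n : ℤ} (hn : 1 ≤ n) (h : P.Good κ δ n) (h1 : κ' ≤ κ)
    (h2 : δ ≤ δ') : P.Good κ' δ' n := by
  obtain ⟨K, k1, k2, k3⟩ := h
  refine ⟨K, k1, h1.trans k2, fun σ hσ x₁ x₂ a1 a2 a3 a4 => (k3 σ hσ x₁ x₂ a1 a2 a3 a4).trans ?_⟩
  have hn' : (1 : ℝ) ≤ n := by exact_mod_cast hn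
  have : 0 ≤ Real.log n := Real.log_nonneg hn'
  exact mul_le_mul_of_nonneg_right h2 (by positivity)

theorem WW_lin {P : Coef} {α a τ s : ℤ} (D : Dat P α a τ s) (n x : ℤ) :
    WW P α τ s n = s * τ * α * P.L₂ x (n - x) - s * a * α * P.L₁ x (n - x) := by
  have e2 : a = τ * (α * (P.a₂ - P.b₂)) := by
    rw [← D.h2]
    rcases D.hτ with h | h <;> rw [h] <;> ring
  unfold WW Coef.L₁ Coef.L₂
  rw [e2, D.h1]
  rcases D.hα with h | h <;> rcases D.hτ with h' | h' <;> rcases D.hs with h'' | h'' <;>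
    rw [h, h', h''] <;> ring

/-- in the region the second form is large -/
theorem L2_big {P : Coef} {α a τ s : ℤ} (D : Dat P α a τ s) (hA : a = |P.a₂ - P.b₂|) {n x : ℤ}
    (hR : P.Region x (n - x)) : WW P α τ s n < 2 * |P.L₂ x (n - x)| := by
  rw [WW_lin D n x]
  unfold Coef.Region at hR
  rw [← hA] at hR
  have h1 : s * τ * α * P.L₂ x (n - x) ≤ |P.L₂ x (n - x)| := by
    have e : |s * τ * α * P.L₂ x (n - x)| = |P.L₂ x (n - x)| := by
      rw [abs_mul]
      have : |s * τ * α| = 1 := by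
        rcases D.hα with h | h <;> rcases D.hτ with h' | h' <;> rcases D.hs with h'' | h'' <;>
          rw [h, h', h''] <;> simp
      rw [this, one_mul]
    rw [← e]
    exact le_abs_self _
  have h2 : -(s * a * α * P.L₁ x (n - x)) ≤ a * |P.L₁ x (n - x)| := by
    have e : |s * a * α * P.L₁ x (n - x)| = a * |P.L₁ x (n - x)| := by
      rw [abs_mul]
      have ha := D.ha
      have : |s * a * α| = a := by
        rw [abs_mul, abs_mul, abs_of_pos (by omega : 0 < a)]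
        rcases D.hα with h | h <;> rcases D.hs with h'' | h'' <;>
          rw [h, h''] <;> simp
      rw [this]
    rw [← e]
    exact neg_le_abs _
  linarith

/-- the value is not small -/
theorem f_big {P : Coef} {α a τ s : ℤ} (D : Dat P α a τ s) (hA : a = |P.a₂ - P.b₂|) {n x : ℤ}
    (hR : P.Region x (n - x)) (hW : 2 * |P.c| + 4 ≤ WW P α τ s n) (h0 : P.L₁ x (n - x) ≠ 0) :
    2 ≤ |P.f x (n - x)| := by
  have h1 := L2_big D hA hR
  have h2 : 1 ≤ |P.L₁ x (n - x)| := Int.one_le_abs h0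
  have h3 : |P.L₂ x (n - x)| ≤ |P.L₁ x (n - x) * P.L₂ x (n - x)| := by
    rw [abs_mul]
    have := abs_nonneg (P.L₂ x (n - x))
    nlinarith
  have h4 : |P.L₁ x (n - x) * P.L₂ x (n - x)| ≤ |P.f x (n - x)| + |P.c| := by
    have e : P.L₁ x (n - x) * P.L₂ x (n - x) = P.f x (n - x) - P.c := by
      unfold Coef.f
      ring
    rw [e]
    exact abs_sub _ _
  omega

/-- the value is at most `n ^ 3` -/
theorem f_le (P : Coef) : ∃ N : ℤ, ∀ n x : ℤ, N ≤ n → 1 ≤ x → x < n → |P.f x (n - x)| ≤ n ^ 3 := by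
  refine ⟨(|P.a₁| + |P.b₁| + |P.e₁|) * (|P.a₂| + |P.b₂| + |P.e₂|) + |P.c|, fun n x hn hx hxn => ?_⟩
  have key : ∀ a b e : ℤ, |a * x + b * (n - x) + e| ≤ (|a| + |b| + |e|) * n := by
    intro a b e
    have h1 : |a * x + b * (n - x) + e| ≤ |a * x| + |b * (n - x)| + |e| := by
      refine (abs_add_le _ _).trans ?_
      have := abs_add_le (a * x) (b * (n - x))
      linarith
    rw [abs_mul, abs_mul, abs_of_pos (by omega : 0 < x), abs_of_pos (by omega : 0 < n - x)] at h1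
    have := abs_nonneg a
    have := abs_nonneg b
    have := abs_nonneg e
    have h2 : |a| * x ≤ |a| * n := mul_le_mul_of_nonneg_left hxn.le (by assumption)
    have h3 : |b| * (n - x) ≤ |b| * n := mul_le_mul_of_nonneg_left (by omega) (by assumption)
    have h4 : |e| * 1 ≤ |e| * n := mul_le_mul_of_nonneg_left (by omega) (by assumption)
    nlinarith
  have h1 := key P.a₁ P.b₁ P.e₁
  have h2 := key P.a₂ P.b₂ P.e₂
  obtain ⟨B1, hB1⟩ : ∃ B1, B1 = |P.a₁| + |P.b₁| + |P.e₁| := ⟨_, rfl⟩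
  obtain ⟨B2, hB2⟩ : ∃ B2, B2 = |P.a₂| + |P.b₂| + |P.e₂| := ⟨_, rfl⟩
  rw [← hB1] at h1 hn
  rw [← hB2] at h2 hn
  have hB10 : 0 ≤ B1 := by rw [hB1]; positivity
  have hB20 : 0 ≤ B2 := by rw [hB2]; positivity
  have hc0 := abs_nonneg P.c
  have h3 : |P.f x (n - x)| ≤ (B1 * n) * (B2 * n) + |P.c| := by
    unfold Coef.f Coef.L₁ Coef.L₂
    refine (abs_add_le _ _).trans ?_
    rw [abs_mul]
    have := mul_le_mul h1 h2 (abs_nonneg _) (mul_nonneg hB10 (by omega))
    linarith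
  have hn1 : 1 ≤ n := by omega
  have h4 : |P.c| * 1 ≤ |P.c| * n ^ 2 := mul_le_mul_of_nonneg_left (by nlinarith) hc0
  have h5 : (B1 * B2 + |P.c|) * n ^ 2 ≤ n * n ^ 2 := mul_le_mul_of_nonneg_right hn (by positivity)
  nlinarith

/-- the number of the prime values on an interval is at most the number of the representations -/
theorem count_le_rep (P : Coef) {n : ℕ} {x₁ x₂ : ℤ} (h1 : 1 ≤ x₁) (h2 : x₂ < n) :
    P.count 1 n x₁ x₂ + P.count (-1) n x₁ x₂ ≤ P.rep n := by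
  unfold Coef.count Coef.rep
  rw [← Finset.card_union_of_disjoint]
  · refine Finset.card_le_card_of_injOn (fun x : ℤ => (x.toNat, ((n : ℤ) - x).toNat)) ?_ ?_
    · intro x hx
      rw [Finset.mem_coe, mem_union, mem_filter, mem_filter, mem_Icc] at hx
      have hxI : x₁ ≤ x ∧ x ≤ x₂ := by tauto
      have hxp : (1 * P.f x (n - x)).toNat.Prime ∨ (-1 * P.f x (n - x)).toNat.Prime := by tauto
      have e1 : ((x.toNat : ℕ) : ℤ) = x := Int.toNat_of_nonneg (by omega)
      have e2 : ((((n : ℤ) - x).toNat : ℕ) : ℤ) = n - x := Int.toNat_of_nonneg (by omega)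
      rw [Finset.mem_coe, mem_filter, mem_product, mem_Icc, mem_Icc]
      refine ⟨⟨⟨?_, ?_⟩, ?_, ?_⟩, ?_, ?_⟩
      · simp only; omega
      · simp only; omega
      · simp only; omega
      · simp only; omega
      · simp only; omega
      · simp only [e1, e2]
        rcases hxp with h | h
        · have h3 := h.pos
          have : (1 * P.f x (n - x)).toNat = (P.f x (n - x)).natAbs := by omega
          rwa [this] at h
        · have h3 := h.pos
          have : (-1 * P.f x (n - x)).toNat = (P.f x (n - x)).natAbs := by omega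
          rwa [this] at h
    · intro x hx y hy hxy
      rw [Finset.mem_coe, mem_union, mem_filter, mem_filter, mem_Icc] at hx hy
      have hxI : x₁ ≤ x ∧ x ≤ x₂ := by tauto
      have hyI : x₁ ≤ y ∧ y ≤ x₂ := by tauto
      simp only [Prod.mk.injEq] at hxy
      omega
  · rw [Finset.disjoint_left]
    intro x hx hx'
    rw [mem_filter] at hx hx'
    have h3 := hx.2.pos
    have h4 := hx'.2.pos
    omega

/-- the sum of `1 / log` from below -/
theorem logSum_ge {P : Coef} {α a τ s : ℤ} (D : Dat P α a τ s) (hA : a = |P.a₂ - P.b₂|) {n : ℕ}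
    {x₁ : ℤ} {k : ℕ} (h1 : 1 ≤ x₁) (h2 : x₁ + k < n)
    (hR : ∀ x : ℤ, x₁ ≤ x → x ≤ x₁ + k → P.Region x (n - x))
    (hW : 2 * |P.c| + 4 ≤ WW P α τ s n) (hf : ∀ x : ℤ, 1 ≤ x → x < n → |P.f x (n - x)| ≤ (n : ℤ) ^ 3) :
    (k : ℝ) / (3 * Real.log n) ≤ P.logSum 1 n x₁ (x₁ + k) + P.logSum (-1) n x₁ (x₁ + k) := by
  have hn3 : 3 ≤ n ∨ n < 3 := by omega
  have hn1 : 2 ≤ n := by omega
  have hlog : 0 < Real.log n := Real.log_pos (by exact_mod_cast (by omega : 1 < n))
  unfold Coef.logSum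
  rw [Finset.sum_filter, Finset.sum_filter, ← Finset.sum_add_distrib]
  have hpt : ∀ x ∈ Icc x₁ (x₁ + k), (if P.L₁ x (n - x) ≠ 0 then 1 / (3 * Real.log n) else 0) ≤
      (if 2 ≤ 1 * P.f x (n - x) then 1 / Real.log ((1 * P.f x (n - x) : ℤ) : ℝ) else 0) +
      (if 2 ≤ -1 * P.f x (n - x) then 1 / Real.log ((-1 * P.f x (n - x) : ℤ) : ℝ) else 0) := by
    intro x hx
    rw [mem_Icc] at hx
    have hnn : ∀ t : ℤ, 0 ≤ (if 2 ≤ t then 1 / Real.log ((t : ℤ) : ℝ) else 0) := by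
      intro t
      split_ifs with ht
      · have : (2 : ℝ) ≤ t := by exact_mod_cast ht
        have := Real.log_nonneg (by linarith : (1 : ℝ) ≤ t)
        positivity
      · exact le_rfl
    by_cases h0 : P.L₁ x (n - x) ≠ 0
    · rw [if_pos h0]
      have hb := f_big D hA (hR x hx.1 hx.2) hW h0
      have hu := hf x (by omega) (by omega)
      have hval : ∀ t : ℤ, 2 ≤ t → t ≤ (n : ℤ) ^ 3 →
          1 / (3 * Real.log n) ≤ 1 / Real.log ((t : ℤ) : ℝ) := by
        intro t ht1 ht2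
        have e1 : (2 : ℝ) ≤ t := by exact_mod_cast ht1
        have e2 : (t : ℝ) ≤ (n : ℝ) ^ 3 := by exact_mod_cast ht2
        have e3 : 0 < Real.log t := Real.log_pos (by linarith)
        have e4 : Real.log t ≤ 3 * Real.log n := by
          have := Real.log_le_log (by linarith) e2
          rw [Real.log_pow] at this
          exact_mod_cast this
        exact one_div_le_one_div_of_le e3 e4
      rcases abs_cases (P.f x (n - x)) with h | h
      · have e : 2 ≤ 1 * P.f x (n - x) := by omega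
        rw [if_pos e]
        have := hval (1 * P.f x (n - x)) e (by rw [one_mul, ← h.1]; exact hu)
        have := hnn (-1 * P.f x (n - x))
        linarith
      · have e : 2 ≤ -1 * P.f x (n - x) := by omega
        rw [if_pos e]
        have := hval (-1 * P.f x (n - x)) e (by rw [neg_one_mul, ← h.1]; exact hu)
        have := hnn (1 * P.f x (n - x))
        linarith
    · rw [if_neg h0]
      exact add_nonneg (hnn _) (hnn _)
  refine le_trans ?_ (Finset.sum_le_sum hpt)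
  rw [← Finset.sum_filter, Finset.sum_const, nsmul_eq_mul]
  have hcard : k ≤ ((Icc x₁ (x₁ + k)).filter (fun x : ℤ => P.L₁ x (n - x) ≠ 0)).card := by
    have e1 := Finset.card_filter_add_card_filter_not (s := Icc x₁ (x₁ + k))
      (fun x : ℤ => P.L₁ x (n - x) = 0)
    have e2 : ((Icc x₁ (x₁ + k)).filter (fun x : ℤ => P.L₁ x (n - x) = 0)).card ≤ 1 := by
      rw [Finset.card_le_one]
      intro x hx y hy
      rw [mem_filter] at hx hy
      have hx2 := hx.2
      have hy2 := hy.2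
      unfold Coef.L₁ at hx2 hy2
      rw [D.h1] at hx2 hy2
      rcases D.hα with h | h <;> rw [h] at hx2 hy2 <;> nlinarith
    have e3 : (Icc x₁ (x₁ + (k : ℤ))).card = k + 1 := by
      rw [Int.card_Icc]
      omega
    rw [e3] at e1
    have e4 : ((Icc x₁ (x₁ + k)).filter (fun x : ℤ => ¬ P.L₁ x (n - x) = 0)).card =
      ((Icc x₁ (x₁ + k)).filter (fun x : ℤ => P.L₁ x (n - x) ≠ 0)).card := rfl
    omega
  have hcr : (k : ℝ) ≤ (((Icc x₁ (x₁ + k)).filter (fun x : ℤ => P.L₁ x (n - x) ≠ 0)).card : ℝ) := by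
    exact_mod_cast hcard
  rw [div_eq_mul_one_div]
  exact mul_le_mul_of_nonneg_right hcr (by positivity)

/-- the region near a vertex -/
theorem reg_of {A a α X Y e₁ e₂ n j J : ℤ} (hA : a = |A|) (ha : 1 ≤ a) (hα : α = 1 ∨ α = -1)
    (hXY : a * |X| < |Y|) (hj : |j| ≤ J) (hn : 2 * a * J + a * |e₁| + |e₂| < n) :
    a * |X * n + α * j + e₁| < |Y * n + A * j + e₂| := by
  have h0 : 0 ≤ |j| := abs_nonneg j
  have h1 : 0 ≤ |e₁| := abs_nonneg _
  have h2 : 0 ≤ |e₂| := abs_nonneg _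
  have hn0 : 0 < n := by nlinarith
  have e1 : |X * n + α * j + e₁| ≤ |X| * n + |j| + |e₁| := by
    have k1 := abs_add_le (X * n + α * j) e₁
    have k2 := abs_add_le (X * n) (α * j)
    have k3 : |X * n| = |X| * n := by rw [abs_mul, abs_of_pos hn0]
    have k4 : |α * j| = |j| := by
      rw [abs_mul]
      rcases hα with h | h <;> rw [h] <;> simp
    linarith
  have e2 : |Y| * n ≤ |Y * n + A * j + e₂| + a * |j| + |e₂| := by
    have k1 : Y * n = (Y * n + A * j + e₂) - (A * j) - e₂ := by ring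
    have k2 : |Y * n| = |Y| * n := by rw [abs_mul, abs_of_pos hn0]
    have k3 := abs_sub ((Y * n + A * j + e₂) - (A * j)) e₂
    have k4 := abs_sub (Y * n + A * j + e₂) (A * j)
    rw [← k1, k2] at k3
    rw [abs_mul, ← hA] at k4
    linarith
  have e3 : (a * |X| + 1) * n ≤ |Y| * n := mul_le_mul_of_nonneg_right (by omega) hn0.le
  have e4 : a * |X * n + α * j + e₁| ≤ a * (|X| * n + |j| + |e₁|) :=
    mul_le_mul_of_nonneg_left e1 (by omega)
  have e5 : a * |j| ≤ a * J := mul_le_mul_of_nonneg_left hj (by omega)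
  nlinarith

/-- many representations -/
theorem many_of {P : Coef} {α a τ s : ℤ} (D : Dat P α a τ s) (hA : a = |P.a₂ - P.b₂|)
    (hV : a * |P.a₁| < |P.a₂| ∨ a * |P.b₁| < |P.b₂|) : ∃ N : ℕ, ∀ n : ℕ, N ≤ n → ∀ κ δ : ℝ, 0 ≤ κ →
      P.Good κ δ n → (κ / (24 * a) - 2 * δ) * ((n : ℝ) / Real.log n) ≤ P.rep n := by
  obtain ⟨N1, hN1⟩ := f_le P
  obtain ⟨d, hd⟩ : ∃ d, d = s * τ * (P.a₁ * P.b₂ - P.a₂ * P.b₁) := ⟨_, rfl⟩
  obtain ⟨E, hE⟩ : ∃ E, E = s * τ * (α * P.e₂ - (P.a₂ - P.b₂) * P.e₁) := ⟨_, rfl⟩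
  have hd1 : 1 ≤ d := by rw [hd]; exact D.hD
  have hWn : ∀ n : ℤ, WW P α τ s n = d * n + E := by
    intro n
    rw [WW_eq D, hd, hE]
  have ha := D.ha
  have he1 : 0 ≤ |P.e₁| := abs_nonneg _
  have he2 : 0 ≤ |P.e₂| := abs_nonneg _
  refine ⟨N1.natAbs + E.natAbs + 2 * P.c.natAbs + 16 * a.natAbs + 8 * (a * |P.e₁|).natAbs +
    8 * (|P.e₂|).natAbs + 8, fun n hn κ δ hκ hG => ?_⟩
  have har : (1 : ℝ) ≤ a := by exact_mod_cast ha
  have hae : 0 ≤ a * |P.e₁| := by positivity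
  have hnZ : |N1| + |E| + 2 * |P.c| + 16 * a + 8 * (a * |P.e₁|) + 8 * |P.e₂| + 8 ≤ n := by
    have hn' : ((N1.natAbs + E.natAbs + 2 * P.c.natAbs + 16 * a.natAbs + 8 * (a * |P.e₁|).natAbs +
      8 * (|P.e₂|).natAbs + 8 : ℕ) : ℤ) ≤ n := by exact_mod_cast hn
    simp only [Nat.cast_add, Nat.cast_mul, Int.natCast_natAbs, Nat.cast_ofNat, abs_abs,
      abs_of_nonneg hae, abs_of_nonneg (by omega : 0 ≤ a)] at hn'
    exact hn'
  have hN10 := abs_nonneg N1
  have hN11 := le_abs_self N1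
  have hE0 := abs_nonneg E
  have hc0 := abs_nonneg P.c
  obtain ⟨k, hk⟩ : ∃ k : ℕ, k = n / (8 * a.natAbs) := ⟨_, rfl⟩
  have hk1 : 8 * a * (k : ℤ) ≤ n := by
    have h1 : 8 * a.natAbs * k ≤ n := by rw [hk]; exact Nat.mul_div_le _ _
    have h2 : ((8 * a.natAbs * k : ℕ) : ℤ) ≤ n := by exact_mod_cast h1
    push_cast at h2
    rw [abs_of_pos (by omega : 0 < a)] at h2
    exact h2
  have hk2 : (n : ℤ) < 8 * a * ((k : ℤ) + 1) := by
    have h1 : n < 8 * a.natAbs * (k + 1) := by rw [hk]; exact Nat.lt_mul_div_succ _ (by omega)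
    have h2 : (n : ℤ) < ((8 * a.natAbs * (k + 1) : ℕ) : ℤ) := by exact_mod_cast h1
    push_cast at h2
    rw [abs_of_pos (by omega : 0 < a)] at h2
    exact h2
  have hkk : 0 ≤ a * (k : ℤ) := by positivity
  have hkn : (k : ℤ) ≤ a * k := by nlinarith
  have hk3 : 8 * (a * (k : ℤ)) ≤ n := by
    have : 8 * a * (k : ℤ) = 8 * (a * k) := by ring
    omega
  have hreg : 2 * a * ((k : ℤ) + 1) + a * |P.e₁| + |P.e₂| < n := by
    have : 2 * a * ((k : ℤ) + 1) = 2 * (a * k) + 2 * a := by ring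
    omega
  -- the interval
  obtain ⟨x₁, hx1, hx2, hR⟩ : ∃ x₁ : ℤ, 1 ≤ x₁ ∧ x₁ + k < n ∧
      ∀ x : ℤ, x₁ ≤ x → x ≤ x₁ + k → P.Region x (n - x) := by
    have hα1 : P.a₁ - P.b₁ = α := by rw [D.h1]; ring
    rcases hV with hV | hV
    · refine ⟨n - 1 - k, by omega, by omega, fun x h1 h2 => ?_⟩
      have := reg_of (A := P.a₂ - P.b₂) (e₁ := P.e₁) (e₂ := P.e₂) (n := n) (j := x - n)
        (J := k + 1) hA ha D.hα hV (by rw [abs_le]; constructor <;> omega) hreg
      unfold Coef.Region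
      rw [← hA]
      have q1 : P.L₁ x (n - x) = P.a₁ * n + α * (x - n) + P.e₁ := by
        unfold Coef.L₁
        rw [← hα1]
        ring
      have q2 : P.L₂ x (n - x) = P.a₂ * n + (P.a₂ - P.b₂) * (x - n) + P.e₂ := by
        unfold Coef.L₂
        ring
      rw [q1, q2]
      exact this
    · refine ⟨1, by omega, by omega, fun x h1 h2 => ?_⟩
      have := reg_of (A := P.a₂ - P.b₂) (e₁ := P.e₁) (e₂ := P.e₂) (n := n) (j := x)
        (J := k + 1) hA ha D.hα hV (by rw [abs_le]; constructor <;> omega) hreg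
      unfold Coef.Region
      rw [← hA]
      have q1 : P.L₁ x (n - x) = P.b₁ * n + α * x + P.e₁ := by
        unfold Coef.L₁
        rw [← hα1]
        ring
      have q2 : P.L₂ x (n - x) = P.b₂ * n + (P.a₂ - P.b₂) * x + P.e₂ := by
        unfold Coef.L₂
        ring
      rw [q1, q2]
      exact this
  have hW : 2 * |P.c| + 4 ≤ WW P α τ s n := by
    rw [hWn]
    have h1 := neg_abs_le E
    have h2 : (n : ℤ) ≤ d * n := by nlinarith
    omega
  have hsum := logSum_ge D hA hx1 hx2 hR hW (fun x h1 h2 => hN1 n x (by omega) h1 h2)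
  obtain ⟨K, -, k2, k3⟩ := hG
  have c1 := (abs_le.1 (k3 1 (Or.inl rfl) x₁ (x₁ + k) hx1 hx2 (hR _ le_rfl (by omega))
    (hR _ (by omega) le_rfl))).1
  have c2 := (abs_le.1 (k3 (-1) (Or.inr rfl) x₁ (x₁ + k) hx1 hx2 (hR _ le_rfl (by omega))
    (hR _ (by omega) le_rfl))).1
  have c3 : ((P.count 1 n x₁ (x₁ + k) : ℕ) : ℝ) + ((P.count (-1) n x₁ (x₁ + k) : ℕ) : ℝ) ≤ P.rep n := by
    exact_mod_cast count_le_rep P hx1 hx2
  have hn2 : (8 : ℝ) ≤ n := by
    have : (8 : ℤ) ≤ n := by omega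
    exact_mod_cast this
  have hlog : 0 < Real.log n := Real.log_pos (by linarith)
  -- the length
  have hkr : (n : ℝ) / (16 * a) ≤ k := by
    have h1 : (n : ℝ) < 8 * a * ((k : ℝ) + 1) := by exact_mod_cast hk2
    have h2 : (16 : ℝ) * a ≤ n := by
      have : 16 * a ≤ (n : ℤ) := by omega
      exact_mod_cast this
    rw [div_le_iff₀ (by positivity)]
    nlinarith
  obtain ⟨S, hS⟩ : ∃ S, S = P.logSum 1 n x₁ (x₁ + k) + P.logSum (-1) n x₁ (x₁ + k) := ⟨_, rfl⟩
  rw [← hS] at hsum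
  have hS0 : 0 ≤ S := le_trans (by positivity) hsum
  have h5 : κ * ((k : ℝ) / (3 * Real.log n)) ≤ K * S :=
    mul_le_mul k2 hsum (by positivity) (hκ.trans k2)
  have h6 : κ / (24 * a) * ((n : ℝ) / Real.log n) ≤ 2 * (κ * ((k : ℝ) / (3 * Real.log n))) := by
    have e1 : κ / (24 * a) * ((n : ℝ) / Real.log n) =
        2 * (κ * (((n : ℝ) / (16 * a)) / (3 * Real.log n))) := by
      field_simp
      ring
    rw [e1]
    gcongr
  push_cast at c1 c2
  have h7 : P.logSum 1 n x₁ (x₁ + k) = S - P.logSum (-1) n x₁ (x₁ + k) := by rw [hS]; ring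
  rw [h7] at c1
  have h8 : (κ / (24 * a) - 2 * δ) * ((n : ℝ) / Real.log n) =
      κ / (24 * a) * ((n : ℝ) / Real.log n) - 2 * (δ * ((n : ℝ) / Real.log n)) := by ring
  rw [h8]
  nlinarith

end Pool.Agent.H27.LF
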