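import Pool.Agent.H27.LF.Eng
import Pool.Agent.H27.LF.Def
import Pool.Graph.R_pool_sql_team_seeded_63374d34.N273.QN.RES

set_option autoImplicit false

/-! # The change of variables -/

namespace Pool.Agent.H27.LF

open Finset Filter Topology
open Pool.Agent.N728.QU (Vg cntg)

/-- The data of the change of variables: `α = a₁ - b₁ = ±1`, `a = |a₂ - b₂|`, signs `τ`, `s`. -/
structure Dat (P : Coef) (α a τ s : ℤ) : Prop where
  hα : α = 1 ∨ α = -1
  hτ : τ = 1 ∨ τ = -1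
  hs : s = 1 ∨ s = -1
  h1 : P.a₁ = P.b₁ + α
  h2 : τ * a = α * (P.a₂ - P.b₂)
  ha : 1 ≤ a
  hD : 1 ≤ s * τ * (P.a₁ * P.b₂ - P.a₂ * P.b₁)
  hc : P.c ≠ 0

/-- `W = |D n + E|` -/
def WW (P : Coef) (α τ s n : ℤ) : ℤ :=
  s * τ * (α * (P.b₂ * n + P.e₂) - (P.a₂ - P.b₂) * (P.b₁ * n + P.e₁))

theorem exists_dat (P : Coef) (h1 : |P.a₁ - P.b₁| = 1) (h2 : P.a₂ ≠ P.b₂)
    (hD : P.a₁ * P.b₂ ≠ P.a₂ * P.b₁) (hc : P.c ≠ 0) :
    ∃ α τ s : ℤ, Dat P α |P.a₂ - P.b₂| τ s := by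
  have hα : P.a₁ - P.b₁ = 1 ∨ P.a₁ - P.b₁ = -1 := by
    rcases abs_eq (by norm_num : (0 : ℤ) ≤ 1) |>.1 h1 with h | h
    · exact Or.inl h
    · exact Or.inr h
  have hA : P.a₂ - P.b₂ ≠ 0 := sub_ne_zero.2 h2
  have hD' : P.a₁ * P.b₂ - P.a₂ * P.b₁ ≠ 0 := sub_ne_zero.2 hD
  have ha : 1 ≤ |P.a₂ - P.b₂| := Int.one_le_abs hA
  obtain ⟨τ, hτ, hτ2⟩ : ∃ τ : ℤ, (τ = 1 ∨ τ = -1) ∧
      τ * |P.a₂ - P.b₂| = (P.a₁ - P.b₁) * (P.a₂ - P.b₂) := by
    rcases hα with h | h <;> rw [h]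
    · rcases abs_choice (P.a₂ - P.b₂) with h' | h'
      · exact ⟨1, Or.inl rfl, by rw [h']⟩
      · exact ⟨-1, Or.inr rfl, by rw [h']; ring⟩
    · rcases abs_choice (P.a₂ - P.b₂) with h' | h'
      · exact ⟨-1, Or.inr rfl, by rw [h']⟩
      · exact ⟨1, Or.inl rfl, by rw [h']; ring⟩
  obtain ⟨s, hs, hs2⟩ : ∃ s : ℤ, (s = 1 ∨ s = -1) ∧
      1 ≤ s * τ * (P.a₁ * P.b₂ - P.a₂ * P.b₁) := by
    rcases lt_or_gt_of_ne hD' with h | h
    · rcases hτ with rfl | rfl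
      · exact ⟨-1, Or.inr rfl, by linarith⟩
      · exact ⟨1, Or.inl rfl, by linarith⟩
    · rcases hτ with rfl | rfl
      · exact ⟨1, Or.inl rfl, by linarith⟩
      · exact ⟨-1, Or.inr rfl, by linarith⟩
  exact ⟨P.a₁ - P.b₁, τ, s, hα, hτ, hs, by ring, hτ2, ha, hs2, hc⟩

variable {P : Coef} {α a τ s : ℤ}

/-- `W` is linear in `n` -/
theorem WW_eq (D : Dat P α a τ s) (n : ℤ) : WW P α τ s n =
    s * τ * (P.a₁ * P.b₂ - P.a₂ * P.b₁) * n + s * τ * (α * P.e₂ - (P.a₂ - P.b₂) * P.e₁) := by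
  unfold WW
  rw [D.h1]
  ring

/-- the value -/
theorem Vg_eq (D : Dat P α a τ s) {n x r σ : ℤ} {h m : ℕ}
    (hr : 2 * a * (h : ℤ) - r = WW P α τ s n)
    (hm : (m : ℤ) = h + s * (x + α * (P.b₁ * n + P.e₁))) :
    Vg a (-r) (σ * τ) (σ * P.c) h m = σ * P.f x (n - x) := by
  have e2 : a = τ * (α * (P.a₂ - P.b₂)) := by
    rw [← D.h2]
    rcases D.hτ with h | h <;> rw [h] <;> ring
  have e3 : r = 2 * a * (h : ℤ) - WW P α τ s n := by linarith
  unfold Vg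
  rw [hm, e3]
  unfold WW Coef.f Coef.L₁ Coef.L₂
  rw [e2, D.h1]
  rcases D.hα with h | h <;> rcases D.hτ with h' | h' <;> rcases D.hs with h'' | h'' <;>
    rw [h, h', h''] <;> ring

/-- the disciminant and the constant of Hardy and Littlewood -/
theorem disc_eq (D : Dat P α a τ s) (n : ℤ) :
    P.k₁ n ^ 2 - 4 * P.k₂ * P.k₀ n = WW P α τ s n ^ 2 - 4 * a * (τ * P.c) := by
  have e2 : a = τ * (α * (P.a₂ - P.b₂)) := by
    rw [← D.h2]
    rcases D.hτ with h | h <;> rw [h] <;> ring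
  unfold Coef.k₁ Coef.k₂ Coef.k₀ WW
  rw [e2, D.h1]
  rcases D.hα with h | h <;> rcases D.hτ with h' | h' <;> rcases D.hs with h'' | h'' <;>
    rw [h, h', h''] <;> ring

theorem k2_eq (D : Dat P α a τ s) : P.k₂ = τ * a := by
  unfold Coef.k₂
  rw [D.h2, D.h1]
  ring

theorem k1_eq (D : Dat P α a τ s) (n : ℤ) :
    P.k₁ n = s * τ * WW P α τ s n + 2 * (P.a₂ - P.b₂) * (P.b₁ * n + P.e₁) := by
  unfold Coef.k₁ WW
  rw [D.h1]
  rcases D.hα with h | h <;> rcases D.hτ with h' | h' <;> rcases D.hs with h'' | h'' <;>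
    rw [h, h', h''] <;> ring

theorem k0_eq (D : Dat P α a τ s) (n : ℤ) :
    P.k₀ n = (P.b₁ * n + P.e₁) * (α * (s * τ * WW P α τ s n + (P.a₂ - P.b₂) * (P.b₁ * n + P.e₁))) +
      P.c := by
  unfold Coef.k₀ WW
  rcases D.hα with h | h <;> rcases D.hτ with h' | h' <;> rcases D.hs with h'' | h'' <;>
    rw [h, h', h''] <;> ring

theorem A_eq (D : Dat P α a τ s) : P.a₂ - P.b₂ = α * τ * a := by
  have := D.h2
  rcases D.hα with h | h <;> rcases D.hτ with h' | h' <;> rw [h, h'] at this ⊢ <;> linarith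

theorem dvd_k2 (D : Dat P α a τ s) (d : ℤ) : d ∣ P.k₂ ↔ d ∣ a := by
  rw [k2_eq D]
  rcases D.hτ with h | h <;> rw [h]
  · rw [one_mul]
  · rw [neg_one_mul, dvd_neg]

theorem dvd_k1 (D : Dat P α a τ s) {d : ℤ} (hd : d ∣ a) (n : ℤ) :
    d ∣ P.k₁ n ↔ d ∣ WW P α τ s n := by
  rw [k1_eq D, A_eq D]
  have h1 : d ∣ 2 * (α * τ * a) * (P.b₁ * n + P.e₁) :=
    Dvd.dvd.mul_right (Dvd.dvd.mul_left (Dvd.dvd.mul_left hd _) _) _
  rw [dvd_add_left h1]
  rcases D.hτ with h | h <;> rcases D.hs with h' | h' <;> rw [h, h'] <;> simp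

theorem odd_k (D : Dat P α a τ s) (n : ℤ) : Odd (P.k₂ + P.k₁ n) ↔ Odd (a + WW P α τ s n) := by
  rw [k2_eq D, k1_eq D]
  have e : τ * a + (s * τ * WW P α τ s n + 2 * (P.a₂ - P.b₂) * (P.b₁ * n + P.e₁)) =
      (τ * a + s * τ * WW P α τ s n) + 2 * ((P.a₂ - P.b₂) * (P.b₁ * n + P.e₁)) := by ring
  rw [e, Int.odd_add, iff_true_right (even_two_mul _)]
  generalize WW P α τ s n = w
  rcases D.hτ with h | h <;> rcases D.hs with h' | h' <;> rw [h, h']
  · simp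
  · simp only [mul_one, neg_mul, one_mul]
    rw [← sub_eq_add_neg, Int.odd_sub, Int.odd_add]
  · simp only [mul_neg, mul_one, neg_mul, one_mul]
    rw [← neg_add, odd_neg]
  · simp only [mul_neg, mul_one, neg_mul, one_mul, neg_neg]
    rw [neg_add_eq_sub, Int.odd_sub', Int.odd_add]

theorem partialC_eq' (D : Dat P α a τ s) (n : ℤ) :
    partialC P.k₂ (P.k₁ n) (P.k₀ n) = Pool.Agent.N728.QL.partialC a (WW P α τ s n) (τ * P.c) := by
  funext z
  unfold partialC Pool.Agent.N728.QL.partialC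
  rw [disc_eq D]
  have e2 : (Icc 3 z).filter (fun p : ℕ => p.Prime ∧ (p : ℤ) ∣ P.k₂ ∧ (p : ℤ) ∣ P.k₁ n) =
      (Icc 3 z).filter (fun p : ℕ => p.Prime ∧ (p : ℤ) ∣ a ∧ (p : ℤ) ∣ WW P α τ s n) := by
    refine Finset.filter_congr fun p _ => ?_
    rw [dvd_k2 D]
    constructor
    · rintro ⟨h1, h2, h3⟩
      exact ⟨h1, h2, (dvd_k1 D h2 n).1 h3⟩
    · rintro ⟨h1, h2, h3⟩
      exact ⟨h1, h2, (dvd_k1 D h2 n).2 h3⟩
  have e3 : (Icc 3 z).filter (fun p : ℕ => p.Prime ∧ ¬ (p : ℤ) ∣ P.k₂) =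
      (Icc 3 z).filter (fun p : ℕ => p.Prime ∧ ¬ (p : ℤ) ∣ a) := by
    refine Finset.filter_congr fun p _ => ?_
    rw [dvd_k2 D]
  rw [e2, e3]
  congr 2
  by_cases ho : Odd (P.k₂ + P.k₁ n)
  · rw [if_pos ho, if_pos ((odd_k D n).1 ho)]
  · rw [if_neg ho, if_neg (fun h' => ho ((odd_k D n).2 h'))]

theorem isC_iff' (D : Dat P α a τ s) (n : ℤ) (K : ℝ) :
    IsC P.k₂ (P.k₁ n) (P.k₀ n) K ↔ Pool.Agent.N728.QL.IsC a (WW P α τ s n) (τ * P.c) K := by
  unfold IsC Pool.Agent.N728.QL.IsC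
  rw [partialC_eq' D]

/-- the conditions -/
theorem adm' (D : Dat P α a τ s) {n : ℤ} (h : P.Admissible n) :
    Pool.Agent.N728.QL.Admissible a (WW P α τ s n) (τ * P.c) := by
  have hk2 : P.k₂ ≠ 0 := by
    rw [k2_eq D]
    have := D.ha
    rcases D.hτ with h | h <;> rw [h] <;> omega
  have hQ : Pool.Agent.N728.QL.Admissible P.k₂ (P.k₁ n) (P.k₀ n) := by
    refine Pool.Agent.N273.QN.adm_of hk2 h.1 ?_
    obtain ⟨x, hx⟩ := h.2 2 Nat.prime_two
    refine ⟨x, ?_⟩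
    rw [← P.eval_g] at hx
    unfold Coef.g at hx
    simp only [Polynomial.eval_add, Polynomial.eval_mul, Polynomial.eval_C, Polynomial.eval_pow,
      Polynomial.eval_X] at hx
    exact_mod_cast hx
  obtain ⟨q1, q2, q3⟩ := hQ
  refine ⟨?_, ?_, ?_⟩
  · obtain ⟨g, hg⟩ : ∃ g, g = Int.gcd (Int.gcd a (WW P α τ s n) : ℤ) (τ * P.c) := ⟨_, rfl⟩
    rw [← hg]
    have d1 : (g : ℤ) ∣ (Int.gcd a (WW P α τ s n) : ℤ) := by
      rw [hg]; exact Int.gcd_dvd_left _ _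
    have d2 : (g : ℤ) ∣ τ * P.c := by
      rw [hg]; exact Int.gcd_dvd_right _ _
    have d2' : (g : ℤ) ∣ P.c := by
      rcases D.hτ with h | h <;> rw [h] at d2
      · rwa [one_mul] at d2
      · rwa [neg_one_mul, dvd_neg] at d2
    have d3 : (g : ℤ) ∣ a := d1.trans (Int.gcd_dvd_left _ _)
    have d4 : (g : ℤ) ∣ WW P α τ s n := d1.trans (Int.gcd_dvd_right _ _)
    have d5 : (g : ℤ) ∣ P.k₂ := (dvd_k2 D _).2 d3
    have d6 : (g : ℤ) ∣ P.k₁ n := (dvd_k1 D d3 n).2 d4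
    have d7 : (g : ℤ) ∣ P.k₀ n := by
      rw [k0_eq D, A_eq D]
      exact dvd_add (Dvd.dvd.mul_left (Dvd.dvd.mul_left (dvd_add (Dvd.dvd.mul_left d4 _)
        (Dvd.dvd.mul_right (Dvd.dvd.mul_left d3 _) _)) _) _) d2'
    have d8 : (g : ℤ) ∣ (Int.gcd (Int.gcd P.k₂ (P.k₁ n) : ℤ) (P.k₀ n) : ℤ) :=
      Int.dvd_coe_gcd (Int.dvd_coe_gcd d5 d6) d7
    rw [q1] at d8
    have d9 : g ∣ 1 := by exact_mod_cast d8
    exact Nat.dvd_one.1 d9
  · rintro ⟨e1, e2⟩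
    have e2' : Even P.c := by
      rcases D.hτ with h | h <;> rw [h] at e2
      · rwa [one_mul] at e2
      · rwa [neg_one_mul, even_neg] at e2
    apply q2
    refine ⟨?_, ?_⟩
    · rw [← Int.not_odd_iff_even, odd_k D, Int.not_odd_iff_even]
      exact e1
    · rw [k0_eq D, A_eq D]
      refine Even.add ?_ e2'
      generalize WW P α τ s n = w at e1
      generalize P.b₁ * n + P.e₁ = t
      obtain ⟨k, hk⟩ := e1
      have hw : w = 2 * k - a := by linarith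
      have ht : Even (t * (t + 1)) := Int.even_mul_succ_self t
      obtain ⟨j, hj⟩ := ht
      rw [hw]
      rcases D.hα with h | h <;> rcases D.hτ with h' | h' <;> rcases D.hs with h'' | h'' <;>
        rw [h, h', h'']
      · exact ⟨t * k + a * j - a * t, by linear_combination a * hj⟩
      · exact ⟨- t * k + a * j, by linear_combination a * hj⟩
      · exact ⟨- t * k - a * j + a * t, by linear_combination (-a) * hj⟩
      · exact ⟨t * k - a * j, by linear_combination (-a) * hj⟩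
      · exact ⟨- t * k + a * j, by linear_combination a * hj⟩
      · exact ⟨t * k + a * j - a * t, by linear_combination a * hj⟩
      · exact ⟨t * k - a * j, by linear_combination (-a) * hj⟩
      · exact ⟨- t * k - a * j + a * t, by linear_combination (-a) * hj⟩
  · rw [← disc_eq D]
    exact q3

/-- a point of the region corresponds to `m ≥ 1` -/
theorem region_pos (D : Dat P α a τ s) {n x r h : ℤ} (hA : a = |P.a₂ - P.b₂|)
    (hW : 0 < WW P α τ s n) (hr : 2 * a * h - r = WW P α τ s n) (hr0 : 0 ≤ r)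
    (hR : P.Region x (n - x)) : 1 ≤ h + s * (x + α * (P.b₁ * n + P.e₁)) := by
  obtain ⟨u, hu⟩ : ∃ u, u = x + α * (P.b₁ * n + P.e₁) := ⟨_, rfl⟩
  obtain ⟨w, hw⟩ : ∃ w, w = WW P α τ s n := ⟨_, rfl⟩
  rw [← hw] at hW hr
  rw [← hu]
  unfold Coef.Region at hR
  have e1 : |P.L₁ x (n - x)| = |u| := by
    have : P.L₁ x (n - x) = α * u := by
      unfold Coef.L₁
      rw [hu, D.h1]
      rcases D.hα with h | h <;> rw [h] <;> ring
    rw [this, abs_mul]
    rcases D.hα with h | h <;> rw [h] <;> simp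
  have e2 : |P.L₂ x (n - x)| = |s * a * u + w| := by
    have : P.L₂ x (n - x) = α * s * τ * (s * a * u + w) := by
      have hA' := A_eq D
      have hb : P.b₂ = P.a₂ - α * τ * a := by linarith
      rw [hw]
      unfold Coef.L₂ WW
      rw [hu]
      rw [hA', hb]
      rcases D.hα with h | h <;> rcases D.hτ with h' | h' <;> rcases D.hs with h'' | h'' <;>
        rw [h, h', h''] <;> ring
    rw [this, abs_mul]
    have : |α * s * τ| = 1 := by
      rcases D.hα with h | h <;> rcases D.hτ with h' | h' <;> rcases D.hs with h'' | h'' <;>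
        rw [h, h', h''] <;> simp
    rw [this, one_mul]
  rw [e1, e2, ← hA] at hR
  have ha := D.ha
  have e3 : a * |u| = |s * a * u| := by
    rw [abs_mul, abs_mul]
    have : |s| = 1 := by rcases D.hs with h | h <;> rw [h] <;> simp
    rw [this, one_mul, abs_of_pos (by omega : 0 < a)]
  rw [e3] at hR
  have e4 : 0 < 2 * (s * a * u) + w := by
    rcases abs_cases (s * a * u) with h | h <;> rcases abs_cases (s * a * u + w) with h' | h' <;>
      omega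
  by_contra hcon
  push Not at hcon
  have e5 : h + s * u ≤ 0 := by omega
  have e6 : 2 * a * (h + s * u) ≤ 0 := mul_nonpos_of_nonneg_of_nonpos (by omega) e5
  have e7 : 2 * (s * a * u) + w = 2 * a * (h + s * u) - r := by
    rw [← hr]; ring
  omega

end Pool.Agent.H27.LF
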