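import Pool.Agent.H27.LF.Red

set_option autoImplicit false

/-! # Transfer of the sums, and the exceptional set -/

namespace Pool.Agent.H27.LF

open Finset Filter Topology
open Pool.Agent.N728.QU (Vg cntg)

theorem transfer {s h p x₁ x₂ : ℤ} {T : ℕ} (hs : s = 1 ∨ s = -1) (hx : x₁ ≤ x₂)
    (l1 : 1 ≤ h + s * (x₁ + p)) (l2 : 1 ≤ h + s * (x₂ + p)) (u1 : h + s * (x₁ + p) ≤ T)
    (u2 : h + s * (x₂ + p) ≤ T) :
    ∃ M1 M2 : ℕ, M1 ≤ T ∧ M2 ≤ T ∧ ∀ (G : ℤ → ℝ) (F : ℕ → ℝ),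
      (∀ (x : ℤ) (m : ℕ), (m : ℤ) = h + s * (x + p) → F m = G x) →
      ∑ x ∈ Icc x₁ x₂, G x = ∑ m ∈ Icc 1 M2, F m - ∑ m ∈ Icc 1 M1, F m := by
  obtain ⟨lo, hi, hlo1, hlohi, hhiT, hmem⟩ : ∃ lo hi : ℕ, 1 ≤ lo ∧ lo ≤ hi ∧ hi ≤ T ∧
      ∀ x : ℤ, (x₁ ≤ x ∧ x ≤ x₂) ↔ ((lo : ℤ) ≤ h + s * (x + p) ∧ h + s * (x + p) ≤ hi) := by
    rcases hs with rfl | rfl
    · refine ⟨(h + 1 * (x₁ + p)).toNat, (h + 1 * (x₂ + p)).toNat, by omega, by omega, by omega, ?_⟩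
      intro x
      rw [Int.toNat_of_nonneg (by omega), Int.toNat_of_nonneg (by omega)]
      omega
    · refine ⟨(h + -1 * (x₂ + p)).toNat, (h + -1 * (x₁ + p)).toNat, by omega, by omega, by omega, ?_⟩
      intro x
      rw [Int.toNat_of_nonneg (by omega), Int.toNat_of_nonneg (by omega)]
      omega
  refine ⟨lo - 1, hi, by omega, hhiT, fun G F hFG => ?_⟩
  have e1 : Icc 1 (lo - 1) = Ico 1 lo := by
    ext m; rw [mem_Icc, mem_Ico]; omega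
  have e2 : Icc 1 hi = Ico 1 (hi + 1) := by
    ext m; rw [mem_Icc, mem_Ico]; omega
  have e3 : ∑ m ∈ Ico 1 lo, F m + ∑ m ∈ Ico lo (hi + 1), F m = ∑ m ∈ Ico 1 (hi + 1), F m :=
    Finset.sum_Ico_consecutive F hlo1 (by omega)
  rw [e1, e2, ← e3, add_sub_cancel_left]
  refine Finset.sum_nbij' (fun x => (h + s * (x + p)).toNat) (fun m => s * ((m : ℤ) - h) - p)
    ?_ ?_ ?_ ?_ ?_
  · intro x hx'
    rw [mem_Icc, hmem] at hx'
    rw [mem_Ico]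
    omega
  · intro m hm
    rw [mem_Ico] at hm
    rw [mem_Icc, hmem]
    have : h + s * (s * ((m : ℤ) - h) - p + p) = m := by
      rcases hs with rfl | rfl <;> ring
    rw [this]
    omega
  · intro x hx'
    rw [mem_Icc, hmem] at hx'
    have : (((h + s * (x + p)).toNat : ℕ) : ℤ) = h + s * (x + p) :=
      Int.toNat_of_nonneg (by omega)
    rw [this]
    rcases hs with rfl | rfl <;> ring
  · intro m hm
    have : h + s * (s * ((m : ℤ) - h) - p + p) = m := by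
      rcases hs with rfl | rfl <;> ring
    rw [this]
    simp
  · intro x hx'
    rw [mem_Icc, hmem] at hx'
    exact (hFG x _ (Int.toNat_of_nonneg (by omega))).symm

/-- from the engine to the asymptotic formula for one `n` -/
theorem good_of {P : Coef} {α a τ s : ℤ} (D : Dat P α a τ s) (hA : a = |P.a₂ - P.b₂|) {n r : ℤ}
    {h T : ℕ} (hn : 1 ≤ n) (hW : 0 < WW P α τ s n) (hr : 2 * a * (h : ℤ) - r = WW P α τ s n)
    (hr0 : 0 ≤ r) (hT : (h : ℤ) + n + |P.b₁| * n + |P.e₁| ≤ T) {κ δ X : ℝ}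
    (hX : 2 * X ≤ δ * ((n : ℝ) / Real.log n)) (hX0 : 0 ≤ X)
    (hK : ∃ C : ℝ, Pool.Agent.N728.QL.IsC a (2 * a * (h : ℤ) + -r) (τ * P.c) C ∧ κ ≤ C ∧
      ∀ σ : ℤ, (σ = 1 ∨ σ = -1) → ∀ M : ℕ, M ≤ T →
      |(cntg a (-r) (σ * τ) (σ * P.c) h M : ℝ) - 2 * C *
        ∑ m ∈ (Icc 1 M).filter (fun m : ℕ => 2 ≤ Vg a (-r) (σ * τ) (σ * P.c) h m),
        1 / Real.log ((Vg a (-r) (σ * τ) (σ * P.c) h m : ℤ) : ℝ)| ≤ X) :
    P.Good κ δ n := by
  obtain ⟨C, c1, c2, c3⟩ := hK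
  rw [← sub_eq_add_neg, hr] at c1
  refine ⟨C, (isC_iff' D n C).2 c1, c2, fun σ hσ x₁ x₂ hx1 hx2 hR1 hR2 => ?_⟩
  rcases lt_or_ge x₂ x₁ with hlt | hle
  · have e1 : P.count σ n x₁ x₂ = 0 := by
      unfold Coef.count
      rw [Finset.Icc_eq_empty (by omega)]
      simp
    have e2 : P.logSum σ n x₁ x₂ = 0 := by
      unfold Coef.logSum
      rw [Finset.Icc_eq_empty (by omega)]
      simp
    rw [e1, e2]
    simp only [Nat.cast_zero, mul_zero, sub_zero, abs_zero]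
    linarith
  obtain ⟨p, hp⟩ : ∃ p, p = α * (P.b₁ * n + P.e₁) := ⟨_, rfl⟩
  have hpn : |p| ≤ |P.b₁| * n + |P.e₁| := by
    rw [hp, abs_mul]
    have h1 : |α| = 1 := by rcases D.hα with h | h <;> rw [h] <;> simp
    rw [h1, one_mul]
    refine (abs_add_le _ _).trans ?_
    rw [abs_mul, abs_of_pos (by omega : 0 < n)]
  have hup : ∀ x : ℤ, 1 ≤ x → x < n → (h : ℤ) + s * (x + p) ≤ T := by
    intro x hx1 hx2
    have h1 : s * (x + p) ≤ |s * (x + p)| := le_abs_self _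
    have h2 : |s * (x + p)| = |x + p| := by
      rw [abs_mul]
      rcases D.hs with h | h <;> rw [h] <;> simp
    have h3 := abs_add_le x p
    rw [abs_of_pos (by omega : 0 < x)] at h3
    omega
  have p1 := region_pos D hA hW hr hr0 hR1
  have p2 := region_pos D hA hW hr hr0 hR2
  rw [← hp] at p1 p2
  obtain ⟨M1, M2, hM1, hM2, hsum⟩ := transfer (T := T) D.hs hle p1 p2 (hup x₁ hx1 (by omega))
    (hup x₂ (by omega) hx2)
  have f1 : ∀ M : ℕ, (cntg a (-r) (σ * τ) (σ * P.c) h M : ℝ) = ∑ m ∈ Icc 1 M,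
      (if (Vg a (-r) (σ * τ) (σ * P.c) h m).toNat.Prime then (1 : ℝ) else 0) := by
    intro M
    unfold cntg
    rw [Finset.sum_boole]
  have f2 : ∀ M : ℕ, ∑ m ∈ (Icc 1 M).filter (fun m : ℕ => 2 ≤ Vg a (-r) (σ * τ) (σ * P.c) h m),
        1 / Real.log ((Vg a (-r) (σ * τ) (σ * P.c) h m : ℤ) : ℝ) = ∑ m ∈ Icc 1 M,
      (if 2 ≤ Vg a (-r) (σ * τ) (σ * P.c) h m then
        1 / Real.log ((Vg a (-r) (σ * τ) (σ * P.c) h m : ℤ) : ℝ) else 0) := by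
    intro M
    rw [Finset.sum_filter]
  have g1 : (P.count σ n x₁ x₂ : ℝ) = ∑ x ∈ Icc x₁ x₂,
      (if (σ * P.f x (n - x)).toNat.Prime then (1 : ℝ) else 0) := by
    unfold Coef.count
    rw [Finset.sum_boole]
  have g2 : P.logSum σ n x₁ x₂ = ∑ x ∈ Icc x₁ x₂,
      (if 2 ≤ σ * P.f x (n - x) then 1 / Real.log ((σ * P.f x (n - x) : ℤ) : ℝ) else 0) := by
    unfold Coef.logSum
    rw [Finset.sum_filter]
  have k1 := hsum (fun x => if (σ * P.f x (n - x)).toNat.Prime then (1 : ℝ) else 0)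
    (fun m => if (Vg a (-r) (σ * τ) (σ * P.c) h m).toNat.Prime then (1 : ℝ) else 0) (by
      intro x m hm
      rw [hp] at hm
      simp only [Vg_eq D hr hm])
  have k2 := hsum (fun x => if 2 ≤ σ * P.f x (n - x) then
      1 / Real.log ((σ * P.f x (n - x) : ℤ) : ℝ) else 0)
    (fun m => if 2 ≤ Vg a (-r) (σ * τ) (σ * P.c) h m then
        1 / Real.log ((Vg a (-r) (σ * τ) (σ * P.c) h m : ℤ) : ℝ) else 0) (by
      intro x m hm
      rw [hp] at hm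
      simp only [Vg_eq D hr hm])
  rw [← g1, ← f1, ← f1] at k1
  rw [← g2, ← f2, ← f2] at k2
  have m1 := abs_le.1 (c3 σ hσ M1 hM1)
  have m2 := abs_le.1 (c3 σ hσ M2 hM2)
  rw [k1, k2]
  refine le_trans ?_ hX
  rw [abs_le]
  constructor
  · linarith [m1.1, m1.2, m2.1, m2.2]
  · linarith [m1.1, m1.2, m2.1, m2.2]

end Pool.Agent.H27.LF
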